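import Pool.Agent.Lib_helper24.AS.Defs

/-!
# Selberg quadratic forms for Levinson's method in an abstract semigroup: definitions
(MP_77948b_nt, project LVK, part A; everything in logarithmic scale)

Square free elements are finite sets of primes: divisibility is `⊆`, gcd `∩`, lcm `∪`.
`lg N m` is the logarithm of the norm.
-/

namespace Pool.Agent.LVA

open Complex MeasureTheory Filter Topology Pool.Agent.AS

variable {P : Type}

/-- Density of the elements: `#{N g ≤ x} / x → ρ > 0`. -/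
def Cnt (N : P → ℕ) (ρ : ℝ) : Prop :=
  0 < ρ ∧ Tendsto (fun x : ℝ => ((ball N x).card : ℝ) / x) atTop (𝓝 ρ)

/-- Logarithm of the norm of the square free element `m`. -/
noncomputable def lg (N : P → ℕ) (m : Finset P) : ℝ := ∑ p ∈ m, Real.log (N p)

/-- Euler's function of the square free element `m`. -/
noncomputable def vf (N : P → ℕ) (m : Finset P) : ℝ := ∏ p ∈ m, ((N p : ℝ) - 1)

/-- The primes of norm `≤ e^t`. -/
noncomputable def PB (N : P → ℕ) (t : ℝ) : Finset P :=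
  open scoped Classical in
  if h : {p : P | Real.log (N p) ≤ t}.Finite then h.toFinset else ∅

/-- The square free elements coprime to `R` of norm `≤ e^t`. -/
noncomputable def SF (N : P → ℕ) (R : Finset P) (t : ℝ) : Finset (Finset P) :=
  open scoped Classical in
  (PB N t).powerset.filter (fun m => Disjoint m R ∧ lg N m ≤ t)

/-- `∑ 1/N g` over the elements of norm `≤ e^t`. -/
noncomputable def Sh (N : P → ℕ) (t : ℝ) : ℝ := ∑ g ∈ ball N (Real.exp t), ((nm N g : ℝ))⁻¹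

/-- `G_R(t) = ∑ 1/φ(e)`. -/
noncomputable def GG (N : P → ℕ) (R : Finset P) (t : ℝ) : ℝ := ∑ e ∈ SF N R t, (vf N e)⁻¹

/-- The weight `w(x) = 1 + b (1 - 2x)` and its primitive. -/
noncomputable def wt (b x : ℝ) : ℝ := 1 + b * (1 - 2 * x)

noncomputable def Pt (b x : ℝ) : ℝ := x + b * x * (1 - x)

/-- `G_w`, level `T = θ L`. -/
noncomputable def Gw (N : P → ℕ) (b T : ℝ) (Q : Finset P) : ℝ :=
  ∑ e ∈ SF N Q T, wt b (1 - lg N e / T) / vf N e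

/-- Selberg's coefficients `λ_m` (zero unless `m ∈ SF N Q T`). -/
noncomputable def lam (N : P → ℕ) (b T : ℝ) (Q : Finset P) (m : Finset P) : ℝ :=
  open scoped Classical in
  (-1) ^ m.card * Real.exp (lg N m) / Gw N b T Q *
    ∑ e ∈ (SF N Q T).filter (fun e => m ⊆ e), wt b (1 - lg N e / T) / vf N e

/-- The coefficients of the mollifier `a_m = λ_m N m^{-R/L}`. -/
noncomputable def am (N : P → ℕ) (b θ R L : ℝ) (Q : Finset P) (m : Finset P) : ℝ :=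
  lam N b (θ * L) Q m * Real.exp (-(R / L) * lg N m)

/-- `∏_{p ∈ k} (1 - N p^{-s})`. -/
noncomputable def ps (N : P → ℕ) (k : Finset P) (s : ℂ) : ℂ :=
  ∏ p ∈ k, (1 - Complex.exp (-(s * Real.log (N p))))

/-- `D(R, t, s) = ∑_k φ(k)^{-1} ∏_{p ∣ k} (1 - N p^{-s})`. -/
noncomputable def DS (N : P → ℕ) (R : Finset P) (t : ℝ) (s : ℂ) : ℂ :=
  ∑ k ∈ SF N R t, ((vf N k : ℝ) : ℂ)⁻¹ * ps N k s

/-- The weighted sum `D_e(s)`. -/
noncomputable def DW [DecidableEq P] (N : P → ℕ) (b T : ℝ) (Q e : Finset P) (s : ℂ) : ℂ :=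
  ∑ k ∈ SF N (Q ∪ e) (T - lg N e),
    ((vf N k : ℝ) : ℂ)⁻¹ * ps N k s * (wt b (1 - (lg N e + lg N k) / T) : ℝ)

/-- `M(c₁,c₂,c₃) = ∑ λ_m λ_n N m^{-1-c₁/L} N n^{-1-c₂/L} N(m,n)^{1+c₃/L}`. -/
noncomputable def Ms [DecidableEq P] (N : P → ℕ) (b θ L : ℝ) (Q : Finset P) (c₁ c₂ c₃ : ℂ) : ℂ :=
  ∑ m ∈ SF N Q (θ * L), ∑ n ∈ SF N Q (θ * L),
    (lam N b (θ * L) Q m : ℂ) * (lam N b (θ * L) Q n : ℂ) *
      Complex.exp (-((1 + c₁ / L) * lg N m)) * Complex.exp (-((1 + c₂ / L) * lg N n)) *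
      Complex.exp ((1 + c₃ / L) * lg N (m ∩ n))

/-- The limit of `ρ φ(Q) θ L M`. -/
noncomputable def II (b θ : ℝ) (c₁ c₂ c₃ : ℂ) : ℂ :=
  ∫ u in (0 : ℝ)..1, Complex.exp (θ * (c₃ - c₁ - c₂) * u) *
    ((wt b (1 - u) : ℝ) + θ * c₁ * (Pt b (1 - u) : ℝ)) *
    ((wt b (1 - u) : ℝ) + θ * c₂ * (Pt b (1 - u) : ℝ))

/-! ### Kernels -/

/-- `∑_g k(v + log N g)`. -/
noncomputable def W1 (N : P → ℕ) (k : ℝ → ℝ) (v : ℝ) : ℝ :=
  ∑' g : P →₀ ℕ, k (v + Real.log (nm N g))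

/-- The error `W1(v) - ρ₂ e^{-v} 1_{v ≤ 0}`. -/
noncomputable def EE (N : P → ℕ) (k : ℝ → ℝ) (ρ₂ v : ℝ) : ℝ :=
  open scoped Classical in
  W1 N k v - if v ≤ 0 then ρ₂ * Real.exp (-v) else 0

/-- `J(κ) = ∫ e^{κ v} E(v) dv`. -/
noncomputable def Jk (N : P → ℕ) (k : ℝ → ℝ) (ρ₂ : ℝ) (κ : ℂ) : ℂ :=
  ∫ v : ℝ, Complex.exp (κ * v) * (EE N k ρ₂ v : ℝ)

/-- The direct diagonal, density at `u`; here `2a = 1 - 2R/L`. -/
noncomputable def dirF [DecidableEq P] (N : P → ℕ) (k : ℝ → ℝ) (b θ R L : ℝ) (Q : Finset P)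
    (F G : ℝ → ℂ) (u : ℝ) : ℂ :=
  Complex.exp (((1 - 2 * R / L) * u : ℝ)) *
    ∑ m ∈ SF N Q (θ * L), ∑ n ∈ SF N Q (θ * L),
      (am N b θ R L Q m : ℂ) * (am N b θ R L Q n : ℂ) *
        F ((u + lg N m) / L) * G ((u + lg N n) / L) * (WW N k Q (u + lg N (m ∪ n)) : ℝ)

/-- The dual diagonal, density at `u`. -/
noncomputable def dualF [DecidableEq P] (N : P → ℕ) (k : ℝ → ℝ) (b θ R L ℓ : ℝ) (Q : Finset P)
    (F G : ℝ → ℂ) (u : ℝ) : ℂ :=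
  Complex.exp ((-ℓ + (-1 - 2 * R / L) * u : ℝ)) *
    ∑ m ∈ SF N Q (θ * L), ∑ n ∈ SF N Q (θ * L),
      (am N b θ R L Q m : ℂ) * (am N b θ R L Q n : ℂ) *
        Complex.exp (-(lg N m + lg N n : ℝ)) *
        F ((u + lg N m) / L) * G ((u + lg N n) / L) *
        (WW N k Q (-u - ℓ - lg N (m ∩ n)) : ℝ)

/-- The limit of `(ρ/ρ₂) (DIR + DUAL)`, closed form. -/
noncomputable def TT (b θ R : ℝ) (α β : ℂ) : ℂ :=
  (1 + Complex.exp (2 * R - α - β)) / 2 +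
    ∫ t in (0 : ℝ)..1, Complex.exp ((2 * R - α - β) * t) *
      (((1 + b ^ 2 / 3) / θ : ℝ) + (θ * (1 / 3 + b / 6 + b ^ 2 / 30) : ℝ) * (R - α) * (R - β))

/-- The constant of Levinson's method for `Q(x) = 1 - lm x`. -/
noncomputable def cc (b θ R lm : ℝ) : ℝ :=
  (1 + Real.exp (2 * R) * (1 - lm) ^ 2) / 2 +
    ∫ t in (0 : ℝ)..1, Real.exp (2 * R * t) *
      ((1 + b ^ 2 / 3) / θ * (1 - lm * t) ^ 2 +
        θ * (1 / 3 + b / 6 + b ^ 2 / 30) * (R * (1 - lm * t) - lm) ^ 2)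

end Pool.Agent.LVA
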